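import Pool.Agent.Lib.XE.Main

/-!
# Few exceptions for `φ (k ^ 2 + 1) = k φ (k + 1)`

There is a real `A` such that for every integer `x ≥ 1` all but at most `A x ^ (249 / 250)` of the integers `1 ≤ k ≤ x` have both
properties: `k` divides `φ (k ^ 2 + 1)` if and only if `k ^ 2 + 1` is prime; `φ (k ^ 2 + 1) = k φ (k + 1)` if and only if `k + 1` and
`k ^ 2 + 1` are both prime.
-/

namespace Pool.Agent.Results.MP_9310ca_nt.FewExceptions

theorem result :
    ∃ A : ℝ, ∀ x : ℕ, 1 ≤ x →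
      ((((Finset.Icc 1 x).filter fun k => ¬ ((k ∣ Nat.totient (k ^ 2 + 1) ↔ (k ^ 2 + 1).Prime) ∧
        (Nat.totient (k ^ 2 + 1) = k * Nat.totient (k + 1) ↔ (k + 1).Prime ∧ (k ^ 2 + 1).Prime))).card : ℕ) : ℝ) ≤
        A * (x : ℝ) ^ (249 / 250 : ℝ) :=
  Pool.Agent.Lib.XE.main_all

end Pool.Agent.Results.MP_9310ca_nt.FewExceptions
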