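import Pool.Agent.Lib.XE.Big

/-!
# The integers with a large prime factor

If `k` has a prime factor `r` with `r ^ 3 > k ^ 2`, then `r` divides `φ (k ^ 2 + 1)` if and only if `k ^ 2 + 1` is prime, and
`φ (k ^ 2 + 1) = k φ (k + 1)` if and only if `k + 1` and `k ^ 2 + 1` are both prime.
-/

namespace Pool.Agent.Results.MP_9310ca_nt.LargePrimeFactor

theorem result : ∀ k r : ℕ, r.Prime → r ∣ k → k ^ 2 < r ^ 3 →
    (r ∣ Nat.totient (k ^ 2 + 1) ↔ (k ^ 2 + 1).Prime) ∧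
    (Nat.totient (k ^ 2 + 1) = k * Nat.totient (k + 1) ↔ (k + 1).Prime ∧ (k ^ 2 + 1).Prime) :=
  fun _ _ => Pool.Agent.Lib.XE.big_prime

end Pool.Agent.Results.MP_9310ca_nt.LargePrimeFactor
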