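import Pool.Agent.Lib.MP_9310ca_nt.TwoPrimes

/-!
# `φ (k ^ 2 + 1) = k φ (k + 1)` with `k ^ 2 + 1` having at most two distinct prime factors

Let `k` be a natural number with `φ (k ^ 2 + 1) = k φ (k + 1)` and `k ≠ 8`. If `k ^ 2 + 1` has at most two distinct prime factors, then
`k + 1` and `k ^ 2 + 1` are both prime.
-/

namespace Pool.Agent.Results.MP_9310ca_nt.TwoPrimes

theorem result (k : ℕ) (hk : Nat.totient (k ^ 2 + 1) = k * Nat.totient (k + 1)) (h8 : k ≠ 8)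
    (h2 : (k ^ 2 + 1).primeFactors.card ≤ 2) : (k + 1).Prime ∧ (k ^ 2 + 1).Prime :=
  Pool.Agent.Lib.MP_9310ca_nt.TwoPrimes.main k hk h8 h2

end Pool.Agent.Results.MP_9310ca_nt.TwoPrimes
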